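import Pool.Agent.J6H90.TK.Stm
import Pool.Agent.J6H90.WT.Fin

/-!
# Project TK: restriction and Tate twist of the representations
-/

set_option autoImplicit false

namespace Pool.Agent.J6H90.TK

open NumberField Filter Topology Pool.Agent.W401.Cheb Pool.Agent.W569.FM
open Pool.Agent.R401.Tr3 Pool.Agent.R401.Tr5 Pool.Agent.R401.Sup3 Pool.Agent.R401.Sup4
open Pool.Agent.R401.Sup (c_ne c_inv)
open Pool.Agent.R401.Tr9 (mh)
open Pool.Agent.R401.Img

set_option linter.unusedSectionVars false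
open Polynomial Matrix

variable {K : Type} [Field K] [NumberField K] {ℓ : ℕ} [Fact ℓ.Prime] {n m : ℕ}

/-- the restriction to `G` of the Tate twist `ρ(u)` -/
noncomputable def tw (u : ℤ) (ρ : GK K →* Matrix (Fin n) (Fin n) ℚ_[ℓ]) (G : Subgroup (GK K)) :
    G →* Matrix (Fin n) (Fin n) ℚ_[ℓ] where
  toFun g := cyc K ℓ ℚ_[ℓ] g ^ u • ρ g
  map_one' := by
    rw [Subgroup.coe_one, map_one, map_one, _root_.one_zpow, one_smul]
  map_mul' x y := by
    rw [Subgroup.coe_mul, map_mul, map_mul, mul_zpow, smul_mul_smul_comm]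

theorem tw_apply (u : ℤ) (ρ : GK K →* Matrix (Fin n) (Fin n) ℚ_[ℓ]) (G : Subgroup (GK K)) (g : G) :
    tw u ρ G g = cyc K ℓ ℚ_[ℓ] g ^ u • ρ g := rfl

theorem nondeg_tw (hres : S_RES) (u : ℤ) {ρ : GK K →* Matrix (Fin n) (Fin n) ℚ_[ℓ]}
    (h : Nondeg ρ) {G : Subgroup (GK K)} (hG : G.Normal) (hGo : IsOpen (G : Set (GK K))) :
    Nondeg (tw u ρ G) := by
  have hfin : Finite (GK K ⧸ G) := Subgroup.quotient_finite_of_isOpen _ hGo
  have hfi : G.FiniteIndex := Subgroup.finiteIndex_of_finite_quotient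
  have h1 := hres ℚ_[ℓ] (GK K) (Fin n) ρ G
    (fun g => ⟨G.index, Nat.pos_of_ne_zero hfi.index_ne_zero, Subgroup.pow_index_mem G g⟩) h
  intro z hz hz0
  refine h1 z ?_ fun g => ?_
  · refine Submodule.span_le.2 ?_ hz
    rintro _ ⟨g, rfl⟩
    rw [tw_apply]
    exact Submodule.smul_mem _ _ (Submodule.subset_span ⟨g, rfl⟩)
  · have h2 := hz0 g
    rw [tw_apply, Matrix.mul_smul, Matrix.trace_smul, smul_eq_mul] at h2
    exact (mul_eq_zero.1 h2).resolve_left (zpow_ne_zero _ (c_ne _ _))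

/-- **Comparison of the invariants.** -/
theorem compare (hres : S_RES) (hfin : S_FIN) {u : ℤ} {φ : GK K → ℚ} {U : Subgroup (GK K)}
    (hUn : U.Normal) (hUo : IsOpen (U : Set (GK K))) (hU : ∀ x ∈ U, ∀ y, φ (x * y) = φ y)
    {G : Subgroup (GK K)} (hG : G.Normal) (hGo : IsOpen (G : Set (GK K))) :
    ∃ t : ℚ, ∀ (ℓ : ℕ) [Fact ℓ.Prime] (V : GK K →* GL (Fin n) ℚ_[ℓ])
      (W : GK K →* GL (Fin m) ℚ_[ℓ]), SS W →
      (∀ y : GK K, cyc K ℓ ℚ_[ℓ] y ^ u * ((mh V y).trace - (mh W y).trace) = (φ y : ℚ_[ℓ])) →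
      (∃ r : ℕ, Module.finrank ℚ_[ℓ] (inv (tw u (mh V) G)) ≤ r ∧
        (r : ℚ) = Module.finrank ℚ_[ℓ] (inv (tw u (mh W) G)) + t) ∧
      (SS V → (Module.finrank ℚ_[ℓ] (inv (tw u (mh V) G)) : ℚ) =
        Module.finrank ℚ_[ℓ] (inv (tw u (mh W) G)) + t) := by
  have hfinU : Finite (GK K ⧸ U) := Subgroup.quotient_finite_of_isOpen _ hUo
  have hfi : U.FiniteIndex := Subgroup.finiteIndex_of_finite_quotient
  have hfi' : (U.subgroupOf G).FiniteIndex := inferInstance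
  obtain ⟨t, ht⟩ := hfin G (U.subgroupOf G) (fun g => φ g) (fun x hx y => by
    rw [Subgroup.coe_mul]
    exact hU x (Subgroup.mem_subgroupOf.1 hx) y)
  refine ⟨t, fun ℓ _ V W hW hφ => ?_⟩
  have hW' : Nondeg (tw u (mh W) G) :=
    nondeg_tw hres u (Pool.Agent.J6H90.WT.nondeg W hW) hG hGo
  obtain ⟨h1, h2⟩ := ht ℚ_[ℓ] n m (tw u (mh V) G) (tw u (mh W) G) (fun g => by
    rw [tw_apply, tw_apply, Matrix.trace_smul, Matrix.trace_smul, smul_eq_mul, smul_eq_mul,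
      ← mul_sub]
    exact hφ g) hW'
  exact ⟨h1, fun hV => h2 (nondeg_tw hres u (Pool.Agent.J6H90.WT.nondeg V hV) hG hGo)⟩

end Pool.Agent.J6H90.TK
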