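import Pool.Agent.J6H90.TK.Stm

/-!
# Module TK-AVG: averaging
-/

set_option autoImplicit false

open Matrix

namespace Pool.Agent.J6H90.TK

theorem avg_aug {k G : Type} [Field k] [Group G] (e : MonoidAlgebra k G) :
    aug e = e.coeff.sum fun _ c => c := by
  unfold aug
  rw [MonoidAlgebra.lift_apply]
  simp

theorem avg : S_AVG := by
  classical
  intro G _ U _ _ φ hφ
  have hφ' : ∀ x ∈ U, ∀ g, φ (g * x) = φ g := by
    intro x hx g
    have h1 : g * x = (g * x * g⁻¹) * g := by group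
    rw [h1]
    exact hφ _ (Subgroup.Normal.conj_mem inferInstance x hx g) g
  have hmk : ∀ a b : G, (a : G ⧸ U) = b → φ a = φ b := by
    intro a b hab
    rw [QuotientGroup.eq] at hab
    have h1 := hφ' _ hab a
    rw [mul_inv_cancel_left] at h1
    exact h1.symm
  have : Fintype (G ⧸ U) := Fintype.ofFinite _
  have hN : (Fintype.card (G ⧸ U) : ℚ) ≠ 0 := by
    exact_mod_cast Fintype.card_ne_zero
  refine ⟨(∑ q : G ⧸ U, φ q.out) / Fintype.card (G ⧸ U), ?_⟩
  intro k _ _ e he h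
  have key : ∀ g, ∑ q : G ⧸ U, φ (q.out * g) = ∑ q : G ⧸ U, φ q.out := by
    intro g
    have h1 : ∀ q : G ⧸ U, φ (q.out * g) = φ ((q * (g : G ⧸ U)).out) := by
      intro q
      apply hmk
      rw [QuotientGroup.mk_mul, QuotientGroup.out_eq', QuotientGroup.out_eq']
    simp_rw [h1]
    exact Equiv.sum_comp (Equiv.mulRight (g : G ⧸ U)) (fun q => φ q.out)
  have hNk : (Fintype.card (G ⧸ U) : k) ≠ 0 := by
    exact_mod_cast Fintype.card_ne_zero
  have h2 : (Fintype.card (G ⧸ U) : k) * (e.coeff.sum fun g c => c * (φ g : k)) =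
      ∑ q : G ⧸ U, e.coeff.sum fun g c => c * (φ (q.out * g) : k) := by
    rw [Finset.sum_congr rfl fun q _ => h q.out, Finset.sum_const, Finset.card_univ, nsmul_eq_mul]
  have h3 : ∑ q : G ⧸ U, (e.coeff.sum fun g c => c * (φ (q.out * g) : k)) =
      ((∑ q : G ⧸ U, φ q.out : ℚ) : k) := by
    unfold Finsupp.sum
    rw [Finset.sum_comm]
    have h4 : ∀ g ∈ e.coeff.support, ∑ q : G ⧸ U, e.coeff g * (φ (q.out * g) : k) =
        e.coeff g * ((∑ q : G ⧸ U, φ q.out : ℚ) : k) := by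
      intro g _
      rw [← Finset.mul_sum, ← key g]
      push_cast
      rfl
    rw [Finset.sum_congr rfl h4, ← Finset.sum_mul]
    have h5 := avg_aug e
    rw [he] at h5
    unfold Finsupp.sum at h5
    rw [← h5, one_mul]
  rw [h3] at h2
  have h6 : (((∑ q : G ⧸ U, φ q.out) / Fintype.card (G ⧸ U) : ℚ) : k) =
      ((∑ q : G ⧸ U, φ q.out : ℚ) : k) / (Fintype.card (G ⧸ U) : k) := by
    rw [Rat.cast_div, Rat.cast_natCast]
  rw [h6, eq_div_iff hNk, mul_comm]
  exact h2

end Pool.Agent.J6H90.TK
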