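import Pool.Agent.J6H90.TK.Stm

/-!
# Project TK, module EX: existence of the projector element

The algebra `A` generated by `ρ` and the augmentation is finite dimensional. Modulo its Jacobson radical
`J` (which is nilpotent) it is semisimple, so the kernel of the augmentation has a complement `C`, a left
ideal; `1 = u + e'` with `aug u = 0`, `e' ∈ C`. For `aug x = 0` we get `x e' ∈ C` and `aug (x e') = 0`, so
`x e' = 0` modulo `J`.
-/

set_option autoImplicit false

open Matrix

namespace Pool.Agent.J6H90.TK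

/-- In a semisimple ring the kernel of a homomorphism to a field has an idempotent complement. -/
theorem exists_proj_semisimple {Q k : Type} [Ring Q] [IsSemisimpleRing Q] [Field k] (χ : Q →+* k) :
    ∃ e : Q, χ e = 1 ∧ ∀ x, χ x = 0 → x * e = 0 := by
  obtain ⟨C, hC⟩ := exists_isCompl (RingHom.ker χ : Ideal Q)
  have h1 : (1 : Q) ∈ (RingHom.ker χ : Ideal Q) ⊔ C := by
    rw [hC.sup_eq_top]
    exact Submodule.mem_top
  obtain ⟨u, hu, e, he, hue⟩ := Submodule.mem_sup.1 h1
  have hχ : χ e = 1 := by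
    have := congrArg χ hue
    rw [map_add, map_one, (RingHom.mem_ker).1 hu, zero_add] at this
    exact this
  refine ⟨e, hχ, fun x hx => ?_⟩
  have h2 : x * e ∈ C := C.mul_mem_left x he
  have h3 : x * e ∈ (RingHom.ker χ : Ideal Q) := by
    rw [RingHom.mem_ker, map_mul, hx, zero_mul]
  have h4 : x * e ∈ (RingHom.ker χ : Ideal Q) ⊓ C := ⟨h3, h2⟩
  rw [hC.inf_eq_bot] at h4
  exact h4

theorem exists_proj_artinian {A k : Type} [Ring A] [IsArtinianRing A] [Field k] (χ : A →+* k) :
    ∃ e : A, χ e = 1 ∧ ∀ x, χ x = 0 → ∀ b, IsNilpotent (x * e * b) := by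
  have hnil : ∀ a ∈ Ring.jacobson A, IsNilpotent a := by
    intro a ha
    obtain ⟨n, hn⟩ := IsSemiprimaryRing.isNilpotent (R := A)
    refine ⟨n, ?_⟩
    have h1 : a ^ n ∈ (Ring.jacobson A) ^ n := Ideal.pow_mem_pow ha n
    rw [hn] at h1
    exact h1
  have hJ : ∀ a ∈ Ring.jacobson A, χ a = 0 := fun a ha => ((hnil a ha).map χ).eq_zero
  obtain ⟨e', he1, he2⟩ := exists_proj_semisimple (Ideal.Quotient.lift (Ring.jacobson A) χ hJ)
  obtain ⟨e, rfl⟩ := Ideal.Quotient.mk_surjective e'
  rw [Ideal.Quotient.lift_mk] at he1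
  refine ⟨e, he1, fun x hx b => hnil _ ?_⟩
  have h1 := he2 (Ideal.Quotient.mk _ x) (by rw [Ideal.Quotient.lift_mk, hx])
  rw [← map_mul, Ideal.Quotient.eq_zero_iff_mem] at h1
  exact Ideal.mul_mem_right _ _ h1

theorem ex : S_EX := by
  intro k G ι _ _ _ _ _ ρ
  let Φ : MonoidAlgebra k G →ₐ[k] Matrix ι ι k × k := (lin ρ).prod aug
  let A := Φ.range
  have hfin : Module.Finite k A := inferInstance
  have hart : IsArtinianRing A := IsArtinianRing.of_finite k A
  let χ : A →+* k := (RingHom.snd (Matrix ι ι k) k).comp (A.val : A →+* Matrix ι ι k × k)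
  obtain ⟨e', he1, he2⟩ := exists_proj_artinian χ
  obtain ⟨e, he⟩ := Φ.rangeRestrict_surjective e'
  refine ⟨e, ?_, ?_⟩
  · have h1 : χ (Φ.rangeRestrict e) = aug e := rfl
    rw [← h1, he, he1]
  · intro x hx b
    have h1 : χ (Φ.rangeRestrict x) = 0 := hx
    have h2 := he2 _ h1 (Φ.rangeRestrict b)
    rw [← he, ← map_mul, ← map_mul] at h2
    have h3 : IsNilpotent (lin ρ (x * e * b)) := by
      have h4 := h2.map ((RingHom.fst (Matrix ι ι k) k).comp (A.val : A →+* Matrix ι ι k × k))
      exact h4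
    exact (Matrix.isNilpotent_trace_of_isNilpotent h3).eq_zero

end Pool.Agent.J6H90.TK
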