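import Pool.Agent.J6H90.TK.Stm
import Pool.Agent.R401.Burn

/-!
# TK, module FIN: the assembly
-/

set_option autoImplicit false

open Matrix

namespace Pool.Agent.J6H90.TK

namespace PFin

variable {k G : Type} [Field k] [Group G]

section func

/-- the linear functional `∑ c_g f(g)` -/
noncomputable def L (f : G → k) (a : MonoidAlgebra k G) : k := a.coeff.sum fun g c => c * f g

theorem L_add (f : G → k) (a b : MonoidAlgebra k G) : L f (a + b) = L f a + L f b := by
  unfold L
  rw [MonoidAlgebra.coeff_add]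
  exact Finsupp.sum_add_index' (fun _ => zero_mul _) (fun _ _ _ => add_mul _ _ _)

theorem L_zero (f : G → k) : L f 0 = 0 := by
  unfold L
  rw [MonoidAlgebra.coeff_zero]
  exact Finsupp.sum_zero_index

theorem L_single (f : G → k) (g : G) (c : k) : L f (MonoidAlgebra.single g c) = c * f g := by
  unfold L
  rw [MonoidAlgebra.coeff_single]
  exact Finsupp.sum_single_index (zero_mul _)

theorem L_mul (f : G → k) (h : G) (a : MonoidAlgebra k G) :
    L f (MonoidAlgebra.single h 1 * a) = L (fun g => f (h * g)) a := by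
  induction a using MonoidAlgebra.induction_linear with
  | zero => rw [mul_zero, L_zero, L_zero]
  | add x y hx hy => rw [mul_add, L_add, L_add, hx, hy]
  | single g c => rw [MonoidAlgebra.single_mul_single, L_single, L_single, one_mul]

theorem L_sub (f f' : G → k) (a : MonoidAlgebra k G) :
    L (fun g => f g - f' g) a = L f a - L f' a := by
  induction a using MonoidAlgebra.induction_linear with
  | zero => rw [L_zero, L_zero, L_zero, sub_zero]
  | add x y hx hy => rw [L_add, L_add, L_add, hx, hy]; ring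
  | single g c => rw [L_single, L_single, L_single]; ring

end func

variable {ι : Type} [Fintype ι] [DecidableEq ι]

theorem lin_single (ρ : G →* Matrix ι ι k) (g : G) (c : k) :
    lin ρ (MonoidAlgebra.single g c) = c • ρ g := MonoidAlgebra.lift_single _ _ _

theorem aug_single (g : G) (c : k) : aug (MonoidAlgebra.single g c) = c := by
  unfold aug
  rw [MonoidAlgebra.lift_single]
  simp

theorem tr_lin (ρ : G →* Matrix ι ι k) (a : MonoidAlgebra k G) :
    (lin ρ a).trace = L (fun g => (ρ g).trace) a := by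
  induction a using MonoidAlgebra.induction_linear with
  | zero => rw [map_zero, L_zero, Matrix.trace_zero]
  | add x y hx hy => rw [map_add, Matrix.trace_add, L_add, hx, hy]
  | single g c => rw [lin_single, L_single, Matrix.trace_smul, smul_eq_mul]

theorem lin_inv (ρ : G →* Matrix ι ι k) (x : ι → k) (hx : x ∈ inv ρ) (a : MonoidAlgebra k G) :
    lin ρ a *ᵥ x = aug a • x := by
  induction a using MonoidAlgebra.induction_linear with
  | zero => rw [map_zero, map_zero, Matrix.zero_mulVec, zero_smul]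
  | add a b ha hb => rw [map_add, map_add, Matrix.add_mulVec, add_smul, ha, hb]
  | single g c =>
    rw [lin_single, aug_single, Matrix.smul_mulVec]
    rw [show ρ g *ᵥ x = x from hx g]

theorem lin_span (ρ : G →* Matrix ι ι k) (a : MonoidAlgebra k G) :
    lin ρ a ∈ Submodule.span k (Set.range ρ) := by
  induction a using MonoidAlgebra.induction_linear with
  | zero => rw [map_zero]; exact zero_mem _
  | add a b ha hb => rw [map_add]; exact add_mem ha hb
  | single g c =>
    rw [lin_single]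
    exact Submodule.smul_mem _ _ (Submodule.subset_span ⟨g, rfl⟩)

/-- elements of the radical are nilpotent -/
theorem rad_nilp [CharZero k] {n : ℕ} (ρ : G →* Matrix (Fin n) (Fin n) k) (y : MonoidAlgebra k G)
    (hy : Rad ρ y) : IsNilpotent (lin ρ y) := by
  have h2 := Pool.Agent.R401.Burn.isNilpotent_of_trace_pow (k := k) (V := Fin n → k)
    (fun m h1 _ => Nat.cast_ne_zero.2 h1.ne') (Matrix.toLin' (lin ρ y)) (by
      intro r
      rw [← Matrix.toLin'_pow, Matrix.trace_toLin'_eq, pow_succ', ← map_pow, ← map_mul]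
      exact hy _)
  obtain ⟨e, he⟩ := h2
  refine ⟨e, ?_⟩
  rw [← Matrix.toLin'_pow] at he
  exact (LinearEquiv.map_eq_zero_iff Matrix.toLin').1 he

/-- the number `r = tr ρ(e)` -/
theorem one_rep [CharZero k] (h3 : S_TRV) {n : ℕ} (ρ : G →* Matrix (Fin n) (Fin n) k)
    (e : MonoidAlgebra k G) (he : aug e = 1) (hP : Proj ρ e) :
    ∃ r : ℕ, (lin ρ e).trace = r ∧ Module.finrank k (inv ρ) ≤ r ∧
      (Nondeg ρ → r = Module.finrank k (inv ρ)) := by
  have h1 : IsNilpotent (lin ρ e * lin ρ e - lin ρ e) := by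
    have h2 : lin ρ e * lin ρ e - lin ρ e = lin ρ ((e - 1) * e) := by
      rw [sub_mul, one_mul, map_sub, map_mul]
    rw [h2]
    refine rad_nilp ρ _ (hP _ ?_)
    rw [map_sub, he, map_one, sub_self]
  obtain ⟨r, hr1, hr2, hr3⟩ := h3 k (Fin n) (lin ρ e) h1 (inv ρ) (fun x hx => by
    rw [lin_inv ρ x hx, he, one_smul])
  refine ⟨r, hr1, hr2, fun hN => hr3 fun x g => ?_⟩
  have h4 : lin ρ ((MonoidAlgebra.single g 1 - 1) * e) = 0 := by
    refine hN _ (lin_span ρ _) fun g' => ?_
    have h5 : Rad ρ ((MonoidAlgebra.single g 1 - 1) * e) := by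
      refine hP _ ?_
      rw [map_sub, aug_single, map_one, sub_self]
    have h6 := h5 (MonoidAlgebra.single g' 1)
    rwa [map_mul, lin_single, one_smul] at h6
  rw [map_mul, map_sub, lin_single, one_smul, map_one, sub_mul, one_mul, sub_eq_zero] at h4
  rw [Matrix.mulVec_mulVec, h4]

end PFin

open PFin in
theorem fin (h1 : S_EX) (h2 : S_SPLIT) (h3 : S_TRV) (h4 : S_REG) (h5 : S_AVG) : S_FIN := by
  intro G _ U _ _ φ hφ
  obtain ⟨t, ht⟩ := h5 G U φ hφ
  refine ⟨t, ?_⟩
  intro k _ _ n m V W hVW hW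
  obtain ⟨r, P, hP⟩ := h4 k G U
  obtain ⟨ρ1, -, hρ1⟩ := h2 k G (Fin n) (Fin m) V W
  obtain ⟨ρ, -, hρ⟩ := h2 k G (Fin n ⊕ Fin m) (Fin r) ρ1 P
  obtain ⟨e, he, hpr⟩ := h1 k G ((Fin n ⊕ Fin m) ⊕ Fin r) ρ
  obtain ⟨hpr1, hprP⟩ := hρ e hpr
  obtain ⟨hprV, hprW⟩ := hρ1 e hpr1
  have h6 := ht k e he (fun h => by
    have h7 : Rad P ((MonoidAlgebra.single h 1 - 1) * e) := by
      refine hprP _ ?_
      rw [map_sub, aug_single, map_one, sub_self]
    have h8 : L (fun g => (φ g : k)) ((MonoidAlgebra.single h 1 - 1) * e) = 0 :=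
      hP _ h7 (fun g => (φ g : k)) (fun x hx g => by rw [hφ x hx g])
    have h9 : L (fun g => (φ g : k)) (MonoidAlgebra.single h 1 * e) =
        L (fun g => (φ g : k)) ((MonoidAlgebra.single h 1 - 1) * e) + L (fun g => (φ g : k)) e := by
      rw [← L_add, sub_mul, one_mul, sub_add_cancel]
    rw [h8, zero_add, PFin.L_mul] at h9
    exact h9)
  obtain ⟨rV, hV1, hV2, hV3⟩ := one_rep h3 V e he hprV
  obtain ⟨rW, hW1, hW2, hW3⟩ := one_rep h3 W e he hprW
  have h7 : (rV : k) - (rW : k) = (t : k) := by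
    rw [← hV1, ← hW1, tr_lin, tr_lin, ← L_sub, ← h6]
    unfold L
    refine Finsupp.sum_congr fun g _ => ?_
    change e.coeff g * ((V g).trace - (W g).trace) = e.coeff g * ((φ g : ℚ) : k)
    rw [hVW g]
  have h8 : (rV : ℚ) = rW + t := by
    have h9 : ((rV : ℚ) : k) = ((rW + t : ℚ) : k) := by
      push_cast
      linear_combination h7
    exact Rat.cast_injective h9
  rw [hW3 hW] at h8
  refine ⟨⟨rV, hV2, h8⟩, fun hN => ?_⟩
  rw [← hV3 hN]
  exact h8

end Pool.Agent.J6H90.TK
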