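import Pool.Agent.J6H90.TK.Stm

/-! # Module TK-REG: the regular representation of a finite quotient -/

set_option autoImplicit false

open Matrix

namespace Pool.Agent.J6H90.TK

namespace REGaux

variable (k : Type) [Field k] {Q : Type} [Group Q] [DecidableEq Q] {r : ℕ}

/-- the regular representation -/
def reg0 (e : Q ≃ Fin r) : Q →* Matrix (Fin r) (Fin r) k where
  toFun g := Matrix.of fun i j => if e.symm i = g * e.symm j then 1 else 0
  map_one' := by
    ext i j
    simp [Matrix.one_apply]
  map_mul' g h := by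
    ext i j
    rw [Matrix.mul_apply]
    simp only [Matrix.of_apply]
    rw [Finset.sum_eq_single (e (h * e.symm j))]
    · simp [mul_assoc]
    · intro l _ hl
      have h1 : e.symm l ≠ h * e.symm j := fun h' => hl (by rw [← h', Equiv.apply_symm_apply])
      simp [h1]
    · simp

theorem trace_reg0 (e : Q ≃ Fin r) (g : Q) :
    (reg0 k e g).trace = if g = 1 then (r : k) else 0 := by
  rw [Matrix.trace]
  simp only [Matrix.diag_apply, reg0, MonoidHom.coe_mk, OneHom.coe_mk, Matrix.of_apply]
  split_ifs with h
  · subst h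
    simp
  · exact Finset.sum_eq_zero fun i _ => if_neg fun h' => h (right_eq_mul.1 h')

end REGaux

open REGaux in
theorem reg : S_REG := by
  classical
  intro k G _ _ _ U _ _
  haveI : Fintype (G ⧸ U) := Fintype.ofFinite _
  let e : (G ⧸ U) ≃ Fin (Fintype.card (G ⧸ U)) := Fintype.equivFin _
  have hr : ((Fintype.card (G ⧸ U) : ℕ) : k) ≠ 0 := Nat.cast_ne_zero.2 Fintype.card_ne_zero
  refine ⟨Fintype.card (G ⧸ U), (reg0 k e).comp (QuotientGroup.mk' U), fun y hy φ hφ => ?_⟩
  set P : G →* Matrix (Fin (Fintype.card (G ⧸ U))) (Fin (Fintype.card (G ⧸ U))) k :=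
    (reg0 k e).comp (QuotientGroup.mk' U) with hP
  have htr : ∀ g : G, (P g).trace =
      if (g : G ⧸ U) = 1 then ((Fintype.card (G ⧸ U) : ℕ) : k) else 0 := fun g =>
    trace_reg0 k e _
  have key : ∀ y : MonoidAlgebra k G, (lin P (y * ∑ q : G ⧸ U,
      MonoidAlgebra.single (q.out)⁻¹ (φ q.out))).trace =
      ((Fintype.card (G ⧸ U) : ℕ) : k) * (y.coeff.sum fun g c => c * φ g) := by
    intro y
    induction y using MonoidAlgebra.induction_linear with
    | zero => simp
    | add x y hx hy =>
      rw [add_mul, map_add, Matrix.trace_add, hx, hy, MonoidAlgebra.coeff_add,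
        Finsupp.sum_add_index' (by simp) (by intros; ring), mul_add]
    | single g c =>
      rw [Finset.mul_sum, map_sum, Matrix.trace_sum]
      have h1 : ∀ q : G ⧸ U, (lin P (MonoidAlgebra.single g c *
          MonoidAlgebra.single (q.out)⁻¹ (φ q.out))).trace =
          if q = (g : G ⧸ U) then c * φ q.out * ((Fintype.card (G ⧸ U) : ℕ) : k) else 0 := by
        intro q
        rw [MonoidAlgebra.single_mul_single, lin, MonoidAlgebra.lift_single, Matrix.trace_smul,
          htr, smul_eq_mul]
        have h2 : ((g * (q.out)⁻¹ : G) : G ⧸ U) = 1 ↔ q = (g : G ⧸ U) := by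
          rw [QuotientGroup.mk_mul, QuotientGroup.mk_inv, QuotientGroup.out_eq', mul_inv_eq_one]
          exact eq_comm
        by_cases h3 : q = (g : G ⧸ U)
        · rw [if_pos (h2.2 h3), if_pos h3]
        · rw [if_neg (fun h => h3 (h2.1 h)), if_neg h3, mul_zero]
      rw [Finset.sum_congr rfl fun q _ => h1 q, Finset.sum_ite_eq', if_pos (Finset.mem_univ _)]
      have h4 : φ (g : G ⧸ U).out = φ g := by
        have h5 : (g : G ⧸ U).out * g⁻¹ ∈ U := by
          rw [← QuotientGroup.eq_one_iff, QuotientGroup.mk_mul, QuotientGroup.mk_inv,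
            QuotientGroup.out_eq', mul_inv_cancel]
        have h6 := hφ _ h5 g
        rwa [inv_mul_cancel_right] at h6
      rw [h4, MonoidAlgebra.coeff_single, Finsupp.sum_single_index (by simp)]
      ring
  have h1 := key y
  rw [hy] at h1
  exact (mul_eq_zero.1 h1.symm).resolve_left hr

end Pool.Agent.J6H90.TK
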