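import Pool.Agent.J6H90.TK.Stm
import Pool.Agent.R401.Tr3

/-!
# TK-RES: restriction of a nondegenerate trace form to a normal subgroup
-/

set_option autoImplicit false

namespace Pool.Agent.J6H90.TK

open Matrix

namespace PRES

theorem mul_mem_span {k A : Type} [Field k] [Ring A] [Algebra k A] {S : Set A}
    (hS : ∀ x ∈ S, ∀ y ∈ S, x * y ∈ S) {x y : A} (hx : x ∈ Submodule.span k S)
    (hy : y ∈ Submodule.span k S) : x * y ∈ Submodule.span k S := by
  have h := Submodule.mul_mem_mul hx hy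
  rw [Submodule.span_mul_span] at h
  refine Submodule.span_mono ?_ h
  rintro _ ⟨a, ha, b, hb, rfl⟩
  exact hS a ha b hb

/-- nilpotence from traces, for all finite index types -/
theorem nilp {k ι : Type} [Field k] [CharZero k] [Fintype ι] [DecidableEq ι] {z : Matrix ι ι k}
    (h : ∀ j : ℕ, ((1 + z) ^ j).trace = Fintype.card ι) : IsNilpotent z := by
  let e := Fintype.equivFin ι
  let f : Matrix ι ι k ≃ₐ[k] Matrix (Fin (Fintype.card ι)) (Fin (Fintype.card ι)) k :=
    Matrix.reindexAlgEquiv k k e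
  have htr : ∀ M : Matrix ι ι k, (f M).trace = M.trace := by
    intro M
    change ∑ i, M (e.symm i) (e.symm i) = ∑ i, M i i
    exact Equiv.sum_comp e.symm (fun i => M i i)
  have h1 : ∀ j : ℕ, ((f (1 + z)) ^ j).trace = (Fintype.card ι : ℕ) := by
    intro j
    rw [← map_pow, htr, h]
  have h2 := Pool.Agent.R401.Tr3.nilp_of_trace h1
  have h3 : f (1 + z) - 1 = f z := by
    rw [map_add, map_one, add_sub_cancel_left]
  rw [h3] at h2
  obtain ⟨n, hn⟩ := h2
  refine ⟨n, f.injective ?_⟩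
  rw [map_pow, hn, map_zero]

section

variable {k G ι : Type} [Field k] [Group G] [Fintype ι] [DecidableEq ι] (ρ : G →* Matrix ι ι k)
  (N : Subgroup G)

/-- the span of the image of the subgroup -/
def AA : Submodule k (Matrix ι ι k) := Submodule.span k (Set.range (ρ.comp N.subtype))

/-- the radical of the trace form of the subgroup -/
def InR (z : Matrix ι ι k) : Prop := z ∈ AA ρ N ∧ ∀ h : N, (z * ρ h).trace = 0

variable {ρ N}

theorem aa_mul {x y : Matrix ι ι k} (hx : x ∈ AA ρ N) (hy : y ∈ AA ρ N) : x * y ∈ AA ρ N := by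
  refine mul_mem_span ?_ hx hy
  rintro _ ⟨a, rfl⟩ _ ⟨b, rfl⟩
  exact ⟨a * b, map_mul _ _ _⟩

theorem aa_of {h : G} (hh : h ∈ N) : ρ h ∈ AA ρ N := Submodule.subset_span ⟨⟨h, hh⟩, rfl⟩

theorem aa_one : (1 : Matrix ι ι k) ∈ AA ρ N := by
  have := aa_of (ρ := ρ) (one_mem N)
  rwa [map_one] at this

theorem InR.tr {z : Matrix ι ι k} (hz : InR ρ N z) {w : Matrix ι ι k} (hw : w ∈ AA ρ N) :
    (z * w).trace = 0 := by
  unfold AA at hw
  induction hw using Submodule.span_induction with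
  | mem x hx =>
    obtain ⟨h, rfl⟩ := hx
    exact hz.2 h
  | zero => rw [mul_zero, Matrix.trace_zero]
  | add x y _ _ hx hy => rw [mul_add, Matrix.trace_add, hx, hy, add_zero]
  | smul c x _ hx => rw [mul_smul_comm, Matrix.trace_smul, hx, smul_zero]

theorem InR.mul {z : Matrix ι ι k} (hz : InR ρ N z) {w : Matrix ι ι k} (hw : w ∈ AA ρ N) :
    InR ρ N (z * w) := by
  refine ⟨aa_mul hz.1 hw, fun h => ?_⟩
  rw [mul_assoc]
  exact hz.tr (aa_mul hw (aa_of h.2))

theorem InR.conj [N.Normal] {z : Matrix ι ι k} (hz : InR ρ N z) (g : G) :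
    InR ρ N (ρ g * z * ρ g⁻¹) := by
  refine ⟨?_, fun h => ?_⟩
  · have h1 : ∀ x ∈ AA ρ N, ρ g * x * ρ g⁻¹ ∈ AA ρ N := by
      intro x hx
      unfold AA at hx
      induction hx using Submodule.span_induction with
      | mem x hx =>
        obtain ⟨h, rfl⟩ := hx
        have h2 : ρ g * (ρ.comp N.subtype) h * ρ g⁻¹ = ρ (g * h * g⁻¹) := by
          rw [map_mul, map_mul]; rfl
        rw [h2]
        exact aa_of (Subgroup.Normal.conj_mem inferInstance _ h.2 g)
      | zero => rw [mul_zero, zero_mul]; exact zero_mem _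
      | add x y _ _ hx hy => rw [mul_add, add_mul]; exact add_mem hx hy
      | smul c x _ hx =>
        rw [mul_smul_comm, smul_mul_assoc]
        exact Submodule.smul_mem _ _ hx
    exact h1 z hz.1
  · have h2 : (ρ g * z * ρ g⁻¹ * ρ h).trace = (z * ρ (g⁻¹ * h * g)).trace := by
      rw [mul_assoc, mul_assoc, Matrix.trace_mul_comm, map_mul, map_mul, mul_assoc]
    rw [h2]
    refine hz.tr (aa_of ?_)
    have := Subgroup.Normal.conj_mem (H := N) inferInstance _ h.2 g⁻¹
    rwa [inv_inv] at this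

theorem InR.nilp [CharZero k] {z : Matrix ι ι k} (hz : InR ρ N z) : IsNilpotent z := by
  refine PRES.nilp fun j => ?_
  have h1 : ∀ j : ℕ, ∃ w ∈ AA ρ N, (1 + z) ^ j = 1 + z * w := by
    intro j
    induction j with
    | zero => exact ⟨0, zero_mem _, by rw [pow_zero, mul_zero, add_zero]⟩
    | succ j ih =>
      obtain ⟨w, hw, h⟩ := ih
      refine ⟨w + 1 + w * z, add_mem (add_mem hw aa_one) (aa_mul hw hz.1), ?_⟩
      rw [pow_succ, h]
      noncomm_ring
  obtain ⟨w, hw, h⟩ := h1 j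
  rw [h, Matrix.trace_add, hz.tr hw, add_zero, Matrix.trace_one]

theorem pow_form [N.Normal] {z : Matrix ι ι k} (hz : InR ρ N z) (g : G) (i : ℕ) :
    ∃ r, InR ρ N r ∧ (z * ρ g) ^ (i + 1) = r * ρ (g ^ (i + 1)) := by
  induction i with
  | zero => exact ⟨z, hz, by simp⟩
  | succ i ih =>
    obtain ⟨r, hr, h⟩ := ih
    refine ⟨r * (ρ (g ^ (i + 1)) * z * ρ (g ^ (i + 1))⁻¹), hr.mul (hz.conj _).1, ?_⟩
    rw [pow_succ, h, pow_succ g (i + 1), map_mul ρ (g ^ (i + 1)) g]
    have h2 : ρ (g ^ (i + 1))⁻¹ * ρ (g ^ (i + 1)) = 1 := by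
      rw [← map_mul, inv_mul_cancel, map_one]
    calc r * ρ (g ^ (i + 1)) * (z * ρ g) = r * (ρ (g ^ (i + 1)) * z) * 1 * ρ g := by
          noncomm_ring
      _ = r * (ρ (g ^ (i + 1)) * z) * (ρ (g ^ (i + 1))⁻¹ * ρ (g ^ (i + 1))) * ρ g := by rw [h2]
      _ = _ := by noncomm_ring

end

end PRES

open PRES in
/-- TK-RES. -/
theorem res : S_RES := by
  intro k G ι _ _ _ _ _ ρ N _ hfin hnd z hz htr
  have hR : InR ρ N z := ⟨hz, htr⟩
  refine hnd z ?_ fun g => ?_
  · refine Submodule.span_mono ?_ hz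
    rintro _ ⟨h, rfl⟩
    exact ⟨h, rfl⟩
  · obtain ⟨M, hM, hg⟩ := hfin g
    obtain ⟨i, rfl⟩ : ∃ i, M = i + 1 := ⟨M - 1, by omega⟩
    obtain ⟨r, hr, h⟩ := pow_form hR g i
    have h1 : IsNilpotent ((z * ρ g) ^ (i + 1)) := by
      rw [h]
      exact (hr.mul (aa_of hg)).nilp
    have h2 : IsNilpotent (z * ρ g) := by
      obtain ⟨n, hn⟩ := h1
      exact ⟨(i + 1) * n, by rw [pow_mul, hn]⟩
    exact (Matrix.isNilpotent_trace_of_isNilpotent h2).eq_zero

end Pool.Agent.J6H90.TK
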