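import Pool.Agent.J6H90.TK.Stm
import Pool.Agent.R401.Burn

/-!
# TK-SPLIT: from a direct sum to the summands
-/

set_option autoImplicit false

open Matrix

namespace Pool.Agent.J6H90.TK

theorem split : S_SPLIT := by
  intro k G ι κ _ _ _ _ _ _ _ V W
  let ρ : G →* Matrix (ι ⊕ κ) (ι ⊕ κ) k :=
    { toFun := fun g => fromBlocks (V g) 0 0 (W g)
      map_one' := by rw [map_one, map_one, fromBlocks_one]
      map_mul' := fun g h => by rw [map_mul, map_mul, fromBlocks_multiply]; simp }
  refine ⟨ρ, fun g => rfl, fun e he => ?_⟩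
  have hρ : ∀ g, ρ g = fromBlocks (V g) 0 0 (W g) := fun g => rfl
  have hlin : ∀ a : MonoidAlgebra k G, lin ρ a = fromBlocks (lin V a) 0 0 (lin W a) := by
    intro a
    induction a using MonoidAlgebra.induction_on with
    | of g =>
      unfold lin
      rw [MonoidAlgebra.lift_of, MonoidAlgebra.lift_of, MonoidAlgebra.lift_of]
      exact hρ g
    | add a b ha hb =>
      rw [map_add, map_add, map_add, ha, hb, fromBlocks_add]
      simp
    | smul c a ha =>
      rw [map_smul, map_smul, map_smul, ha, fromBlocks_smul]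
      simp
  -- the products are nilpotent
  have hnil : ∀ x, aug x = 0 → ∀ b, IsNilpotent (lin V (x * e * b)) ∧
      IsNilpotent (lin W (x * e * b)) := by
    intro x hx b
    have hpow : ∀ r : ℕ, ((lin ρ (x * e * b)) ^ (r + 1)).trace = 0 := by
      intro r
      rw [← map_pow, pow_succ', mul_assoc (x * e)]
      exact he x hx _
    have h1 := Pool.Agent.R401.Burn.isNilpotent_of_trace_pow (k := k) (V := (ι ⊕ κ) → k)
      (fun m h1 _ => Nat.cast_ne_zero.2 h1.ne') (Matrix.toLin' (lin ρ (x * e * b))) (by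
        intro r
        rw [← Matrix.toLin'_pow, Matrix.trace_toLin'_eq]
        exact hpow r)
    obtain ⟨n, hn⟩ := h1
    rw [← Matrix.toLin'_pow] at hn
    have h2 := (LinearEquiv.map_eq_zero_iff Matrix.toLin').1 hn
    rw [← map_pow, hlin, map_pow, map_pow] at h2
    have h3 := fromBlocks_zero (l := ι) (m := κ) (n := ι) (o := κ) (α := k)
    rw [← h3, fromBlocks_inj] at h2
    exact ⟨⟨n, h2.1⟩, ⟨n, h2.2.2.2⟩⟩
  exact ⟨fun x hx b => (Matrix.isNilpotent_trace_of_isNilpotent (hnil x hx b).1).eq_zero,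
    fun x hx b => (Matrix.isNilpotent_trace_of_isNilpotent (hnil x hx b).2).eq_zero⟩

end Pool.Agent.J6H90.TK
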