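import Pool.Agent.J6H90.TK.Stm

/-!
# TRV: the trace of an almost idempotent matrix
-/

set_option autoImplicit false

open Matrix Polynomial

namespace Pool.Agent.J6H90.TK

theorem trv_poly (k : Type) [Field k] (N : ℕ) (hN : 1 ≤ N) : ∃ p : k[X],
    (∃ s, p = X * s) ∧ (∃ s, p - X = (X * X - X) * s) ∧
    (∃ s, p * p - p = (X * X - X) ^ N * s) ∧ ∃ s, p - 1 = (X - 1) * s := by
  have hA : (X : k[X]) ^ N ∣ 1 - (1 - X ^ N) ^ N := by
    have := sub_dvd_pow_sub_pow (1 : k[X]) (1 - X ^ N) N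
    rwa [one_pow, sub_sub_cancel] at this
  have hB : ((X : k[X]) - 1) ^ N ∣ (1 - X ^ N) ^ N := by
    refine pow_dvd_pow_of_dvd ?_ N
    have := sub_dvd_pow_sub_pow (X : k[X]) 1 N
    rw [one_pow] at this
    exact (dvd_sub_comm).1 this
  have hX : (X : k[X]) ∣ 1 - (1 - X ^ N) ^ N := (dvd_pow_self X (by omega)).trans hA
  have hX1 : ((X : k[X]) - 1) ∣ (1 - X ^ N) ^ N := (dvd_pow_self _ (by omega)).trans hB
  have hX1' : ((X : k[X]) - 1) ∣ (1 - (1 - X ^ N) ^ N) - 1 := by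
    have e : (1 - (1 - (X : k[X]) ^ N) ^ N) - 1 = -(1 - X ^ N) ^ N := by ring
    rw [e]
    exact (dvd_neg).2 hX1
  have e0 : (X : k[X]) * X - X = X * (X - 1) := by ring
  refine ⟨1 - (1 - X ^ N) ^ N, hX, ?_, ?_, hX1'⟩
  · rw [e0]
    have hc : IsCoprime (X : k[X]) (X - 1) := ⟨1, -1, by ring⟩
    refine hc.mul_dvd (dvd_sub hX dvd_rfl) ?_
    have e : (1 - (1 - (X : k[X]) ^ N) ^ N) - X = ((1 - (1 - X ^ N) ^ N) - 1) - (X - 1) := by ring
    rw [e]
    exact dvd_sub hX1' dvd_rfl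
  · rw [e0, mul_pow]
    have e : (1 - (1 - (X : k[X]) ^ N) ^ N) * (1 - (1 - X ^ N) ^ N) - (1 - (1 - X ^ N) ^ N) =
        -((1 - (1 - X ^ N) ^ N) * (1 - X ^ N) ^ N) := by ring
    rw [e]
    exact (dvd_neg).2 (mul_dvd_mul hA hB)

theorem trv : S_TRV := by
  intro k ι _ _ _ _ E hE S hS
  obtain ⟨N₀, hN₀⟩ := hE
  obtain ⟨N, hN1, hN⟩ : ∃ N, 1 ≤ N ∧ (E * E - E) ^ N = 0 :=
    ⟨N₀ + 1, by omega, by rw [pow_succ, hN₀, zero_mul]⟩
  obtain ⟨p, ⟨s1, h1⟩, ⟨s2, h2⟩, ⟨s3, h3⟩, ⟨s4, h4⟩⟩ := trv_poly k N hN1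
  have hid : aeval E p * aeval E p = aeval E p := by
    have := congrArg (aeval E) h3
    simp only [map_sub, map_mul, map_pow, aeval_X] at this
    rw [hN, zero_mul, sub_eq_zero] at this
    exact this
  have hnil : IsNilpotent (aeval E p - E) := by
    have := congrArg (aeval E) h2
    simp only [map_sub, map_mul, aeval_X] at this
    rw [this]
    have hc : Commute (E * E - E) (aeval E s2) := by
      have h5 : Commute (aeval E (X * X - X : k[X])) (aeval E s2) := by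
        unfold Commute SemiconjBy
        rw [← map_mul, ← map_mul, mul_comm]
      simpa only [map_sub, map_mul, aeval_X] using h5
    exact ⟨N, by rw [hc.mul_pow, hN, zero_mul]⟩
  have htr : E.trace = (aeval E p).trace := by
    have h0 := (Matrix.isNilpotent_trace_of_isNilpotent hnil).eq_zero
    rw [Matrix.trace_sub, sub_eq_zero] at h0
    exact h0.symm
  have hproj : LinearMap.IsProj (LinearMap.range (toLin' (aeval E p))) (toLin' (aeval E p)) := by
    refine ⟨fun x => LinearMap.mem_range_self _ x, ?_⟩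
    rintro _ ⟨x, rfl⟩
    rw [toLin'_apply, toLin'_apply, Matrix.mulVec_mulVec, hid]
  have htr2 : (aeval E p).trace =
      ((Module.finrank k (LinearMap.range (toLin' (aeval E p))) : ℕ) : k) := by
    rw [← Matrix.trace_toLin'_eq]
    exact hproj.trace
  have hfix : ∀ x ∈ S, aeval E p *ᵥ x = x := by
    intro x hx
    have h5 : (aeval E s4 * (E - 1)) *ᵥ x = 0 := by
      rw [← Matrix.mulVec_mulVec, Matrix.sub_mulVec, hS x hx, Matrix.one_mulVec, sub_self,
        Matrix.mulVec_zero]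
    have h6 := congrArg (aeval E) h4
    rw [mul_comm] at h6
    simp only [map_sub, map_mul, aeval_X, map_one] at h6
    rw [← h6, Matrix.sub_mulVec, Matrix.one_mulVec, sub_eq_zero] at h5
    exact h5
  refine ⟨Module.finrank k (LinearMap.range (toLin' (aeval E p))), by rw [htr, htr2], ?_, ?_⟩
  · refine Submodule.finrank_mono fun x hx => ⟨x, ?_⟩
    rw [toLin'_apply, hfix x hx]
  · intro hES
    refine le_antisymm (Submodule.finrank_mono ?_) (Submodule.finrank_mono fun x hx => ⟨x, ?_⟩)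
    · rintro _ ⟨x, rfl⟩
      rw [toLin'_apply, h1, map_mul, aeval_X, ← Matrix.mulVec_mulVec]
      exact hES _
    · rw [toLin'_apply, hfix x hx]

end Pool.Agent.J6H90.TK
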