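import Mathlib

/-!
# Project TK (MP_17a657_ag): comparison of the numbers of Tate classes

`V`, `W` representations of a group `G` over a field of characteristic zero, the difference of the
characters is a rational function `φ` on a finite quotient `G ⧸ U`. Then
`dim V ^ G ≤ dim W ^ G + average of φ`, with equality if `V` is semisimple. (`W` semisimple.)

Every `S_...` below is one module (`theorem xxx : S_XXX`, with the indicated earlier statements as
hypotheses).  Pure algebra over Mathlib.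
-/

set_option autoImplicit false

open Matrix

namespace Pool.Agent.J6H90.TK

section

variable {k G : Type} [Field k] [Group G] {ι : Type} [Fintype ι] [DecidableEq ι]

/-- linear extension of a representation to the group algebra -/
noncomputable def lin (ρ : G →* Matrix ι ι k) : MonoidAlgebra k G →ₐ[k] Matrix ι ι k :=
  MonoidAlgebra.lift k (Matrix ι ι k) G ρ

/-- the augmentation -/
noncomputable def aug : MonoidAlgebra k G →ₐ[k] k := MonoidAlgebra.lift k k G 1

/-- `x` is in the radical of the trace form of `ρ` -/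
def Rad (ρ : G →* Matrix ι ι k) (x : MonoidAlgebra k G) : Prop :=
  ∀ b, (lin ρ (x * b)).trace = 0

/-- `e` is a projector to the invariants modulo the radical -/
def Proj (ρ : G →* Matrix ι ι k) (e : MonoidAlgebra k G) : Prop :=
  ∀ x, aug x = 0 → Rad ρ (x * e)

/-- the trace form of `ρ` is nondegenerate (that is, `ρ` is semisimple) -/
def Nondeg (ρ : G →* Matrix ι ι k) : Prop :=
  ∀ z ∈ Submodule.span k (Set.range ρ), (∀ g, (z * ρ g).trace = 0) → z = 0

/-- the invariants -/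
def inv (ρ : G →* Matrix ι ι k) : Submodule k (ι → k) where
  carrier := {x | ∀ g, ρ g *ᵥ x = x}
  add_mem' := by
    intro x y hx hy g
    rw [Matrix.mulVec_add, hx g, hy g]
  zero_mem' := fun g => Matrix.mulVec_zero _
  smul_mem' := by
    intro c x hx g
    rw [Matrix.mulVec_smul, hx g]

end

/-- EX.  Existence of `e`.  Proof: let `Φ : k[G] → Matrix ι ι k × k`, `a ↦ (lin ρ a, aug a)`, `𝒜` its
image (finite dimensional), `B(a, b) = tr (ab)_1 + (ab)_2` on `𝒜`, `R` the radical of `B` on `𝒜` (a two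
sided ideal), `J` the ideal of the `a ∈ 𝒜` with second component `0` (codimension one),
`J' = {a ∈ 𝒜 | B(a, b) = 0 for all b ∈ J}`.  Claim 1: `J ∩ J' ⊆ R`: for `a, a' ∈ J ∩ J'` and `b ∈ 𝒜`,
`B(a a', b) = B(a, a' b) = 0` since `a' b ∈ J`; so `(ab)^2 ∈ R` (`ab` is in `J ∩ J'`, too), so
`tr ((ab)_1 ^ i) = B((ab)^2 , (ab)^(i-2)) = 0` for `i ≥ 2` (second components are `0`), so the trace of
every power of `((ab)_1)^2` is `0`, `(ab)_1` is nilpotent and `B(a, b) = tr (ab)_1 = 0`.  Claim 2: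
`J + J' = 𝒜`: `dim J' ≥ 1` and `J' ∩ J ⊆ R`.  If `J' ⊆ J` then `J' ⊆ R`, i.e. (dimensions,
`J' = J^⊥`, `J'^⊥ = J + R`, `R^⊥ = 𝒜`) `J + R = 𝒜`; but the second component of `a ∈ R` is `0`: (the
elements `(a_1, a_2)` of `R` have nilpotent `a`: `tr a_1^i + a_2^i = 0` for all `i ≥ 1`, and the matrix
`a_1 ⊕ a_2` is nilpotent).  So some `e' ∈ J'` has second component `1`; take `e ∈ k[G]` with
`Φ e = e'`.  For `aug x = 0`: `Φ(x e) ∈ J ∩ J' ⊆ R`, so for all `b` also `Φ(x e b) ∈ R`, it is nilpotent,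
and `tr lin ρ (x e b) = 0`. -/
def S_EX : Prop := ∀ (k G ι : Type) [Field k] [CharZero k] [Group G] [Fintype ι] [DecidableEq ι]
  (ρ : G →* Matrix ι ι k), ∃ e : MonoidAlgebra k G, aug e = 1 ∧ Proj ρ e

/-- SPLIT.  From a direct sum to the summands.  Proof: `ρ = fromBlocks (V g) 0 0 (W g)`; for
`y = x e b` all powers `y ^ i`, `i ≥ 1`, are of the form `x e b'`, so `tr ρ(y ^ i) = 0` and `ρ(y)` is
nilpotent (characteristic 0; e.g. `Pool.Agent.R401.Tr3.nilp_of_trace` for `1 + ρ(y)` or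
`Matrix.isNilpotent_...`), so its blocks `V(y)`, `W(y)` are nilpotent and have trace `0`. -/
def S_SPLIT : Prop := ∀ (k G ι κ : Type) [Field k] [CharZero k] [Group G] [Fintype ι]
  [DecidableEq ι] [Fintype κ] [DecidableEq κ] (V : G →* Matrix ι ι k) (W : G →* Matrix κ κ k),
  ∃ ρ : G →* Matrix (ι ⊕ κ) (ι ⊕ κ) k, (∀ g, ρ g = fromBlocks (V g) 0 0 (W g)) ∧
    ∀ e, Proj ρ e → Proj V e ∧ Proj W e

/-- TRV.  Proof: there is a polynomial `p` (`E' = p(E)`, `p(0) = 0`, `p(1) = 1`; e.g. iterate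
`3 X ^ 2 - 2 X ^ 3`) with `E' E' = E'` and `E' - E` nilpotent, so `tr E = tr E' = rank E'`, `E' x = x`
for `x ∈ S`. -/
def S_TRV : Prop := ∀ (k ι : Type) [Field k] [CharZero k] [Fintype ι] [DecidableEq ι]
  (E : Matrix ι ι k), IsNilpotent (E * E - E) → ∀ S : Submodule k (ι → k), (∀ x ∈ S, E *ᵥ x = x) →
  ∃ r : ℕ, E.trace = r ∧ Module.finrank k S ≤ r ∧ ((∀ x, E *ᵥ x ∈ S) → r = Module.finrank k S)

/-- REG.  The regular representation of `G ⧸ U`: `tr P(g) = r` for `g ∈ U` and `= 0` for `g ∉ U`, so for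
`b = h⁻¹` one gets that the sum of the coefficients of `y` in every coset of `U` is `0`. -/
def S_REG : Prop := ∀ (k G : Type) [Field k] [CharZero k] [Group G] (U : Subgroup G) [U.Normal]
  [U.FiniteIndex], ∃ (r : ℕ) (P : G →* Matrix (Fin r) (Fin r) k), ∀ y : MonoidAlgebra k G, Rad P y →
    ∀ φ : G → k, (∀ x ∈ U, ∀ g, φ (x * g) = φ g) → (y.coeff.sum fun g c => c * φ g) = 0

/-- AVG (elementary).  `t` = the average of `φ` over `G ⧸ U`.  By hypothesis
`∑ e_g φ(h g) = ∑ e_g φ(g)` for all `h`; sum over representatives `h` of `G ⧸ U`: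
`∑_h φ(h g)` does not depend on `g` and is `[G : U] t`; `∑ e_g = aug e = 1`. -/
def S_AVG : Prop := ∀ (G : Type) [Group G] (U : Subgroup G) [U.Normal] [U.FiniteIndex] (φ : G → ℚ),
  (∀ x ∈ U, ∀ g, φ (x * g) = φ g) → ∃ t : ℚ, ∀ (k : Type) [Field k] [CharZero k]
    (e : MonoidAlgebra k G), aug e = 1 →
    (∀ h : G, (e.coeff.sum fun g c => c * (φ (h * g) : k)) =
      e.coeff.sum fun g c => c * (φ g : k)) →
    (e.coeff.sum fun g c => c * (φ g : k)) = (t : k)

/-- FIN (from EX, SPLIT, TRV, REG, AVG).  Take `P` from REG, the direct sum `ρ` of `V`, `W`, `P`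
(SPLIT twice), `e` from EX.  For `h ∈ G` let `y = (h - 1) e` (`MonoidAlgebra.single h 1 - 1`); `Rad P y` and
REG give the hypothesis of AVG (`∑ y_g φ(g) = ∑ e_g (φ(h g) - φ(g))`), so `∑ e_g φ(g) = t`, that is
`tr V(e) - tr W(e) = t`.  `E_V = V(e)`: `e e - e = - (1 - e) e`, `aug (1 - e) = 0`, so `e e - e ∈ Rad V` and
`E_V E_V - E_V` is nilpotent (the powers `y ^ i = y * y ^ (i - 1)` have trace `0`); `E_V x = x` for
invariant `x` (since `aug e = 1`).  TRV: `tr E_V = r_V ≥ dim inv V`.  If `V` is nondegenerate then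
`V((h - 1) e) = 0` for all `h`, so `E_V x ∈ inv V` for all `x` and `r_V = dim inv V`.  In the same way
`tr E_W = dim inv W`. -/
def S_FIN : Prop := ∀ (G : Type) [Group G] (U : Subgroup G) [U.Normal] [U.FiniteIndex] (φ : G → ℚ),
  (∀ x ∈ U, ∀ g, φ (x * g) = φ g) → ∃ t : ℚ, ∀ (k : Type) [Field k] [CharZero k] (n m : ℕ)
    (V : G →* Matrix (Fin n) (Fin n) k) (W : G →* Matrix (Fin m) (Fin m) k),
    (∀ g, (V g).trace - (W g).trace = (φ g : k)) → Nondeg W →
    (∃ r : ℕ, Module.finrank k (inv V) ≤ r ∧ (r : ℚ) = Module.finrank k (inv W) + t) ∧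
    (Nondeg V → (Module.finrank k (inv V) : ℚ) = Module.finrank k (inv W) + t)

/-- RES.  Restriction to a normal subgroup.  Proof: let `𝒜_N` be the span of the `ρ h`, `h ∈ N`, and
`R` the radical of its trace form; it is an ideal of `𝒜_N`, stable under conjugation by the `ρ g`, and
all its elements are nilpotent.  For `z ∈ R`, `g_1, ..., g_s ∈ G`: `z ρ(g_1) z ρ(g_2) ⋯ z ρ(g_s) =
z z' z'' ⋯ ρ(g_1 ⋯ g_s)` with all `z^(i) ∈ R`, and a product of `dim + 1` (in fact `n`) elements of `R`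
vanishes: `R` is a nil, hence nilpotent ideal of a finite dimensional algebra (or: Engel's theorem
for a set of matrices closed under multiplication, a multiplicative semigroup of nilpotent matrices;
or avoid this: `tr (z ρ(g))` for `g ∈ G`: `(z ρ(g)) ^ i = z z' ⋯ z^(i-1) ρ(g ^ i)`; if `g ^ M ∈ N` then
`(z ρ(g)) ^ M ∈ R` (as `R 𝒜_N ⊆ R`) is nilpotent, so `z ρ(g)` is nilpotent and `tr (z ρ(g)) = 0`).
By `Nondeg ρ`, `z = 0`.  The last argument needs only that every `g` has a positive power in `N`. -/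
def S_RES : Prop := ∀ (k G ι : Type) [Field k] [CharZero k] [Group G] [Fintype ι] [DecidableEq ι]
  (ρ : G →* Matrix ι ι k) (N : Subgroup G) [N.Normal], (∀ g : G, ∃ M : ℕ, 0 < M ∧ g ^ M ∈ N) →
  Nondeg ρ → Nondeg (ρ.comp N.subtype)

end Pool.Agent.J6H90.TK
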